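import Pool.Agent.Helper86_DA.Wst

/-!
Module W3 (closed chains): two-valued walks, colouring of conflicts, all conflicts at once.
-/

set_option autoImplicit false

namespace CLB.H26

open Finset
open H3DA (Q neg nr)
open CLB.H86

/-! ### Two values -/

/-- ordered pairs of near different labels -/
def PP : Finset (Q × Q) := univ.filter (fun p => nr p.1 p.2 = true ∧ p.1 ≠ p.2)

def sel (b : Bool) (p : Q × Q) : Q := if b then p.2 else p.1

theorem PP_card : PP.card = 24 := by decide

theorem bad1 : ∀ (q : Q) (b : Bool),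
    (PP.filter (fun p => nr q (sel b p) = true ∧ nr q (sel (!b) p) = false)).card = 6 := by decide

theorem bad2 : ∀ (w : Q) (b : Bool), (PP.filter (fun p => sel b p = w)).card = 3 := by decide

theorem tv : TvH := by
  intro q q' w w' b1 b2 b3 b4
  set B1 := PP.filter (fun p => nr q (sel b1 p) = true ∧ nr q (sel (!b1) p) = false) with hB1
  set B2 := PP.filter (fun p => nr q' (sel b2 p) = true ∧ nr q' (sel (!b2) p) = false) with hB2
  set B3 := PP.filter (fun p => sel b3 p = w) with hB3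
  set B4 := PP.filter (fun p => sel b4 p = w') with hB4
  have h1 : B1.card = 6 := bad1 q b1
  have h2 : B2.card = 6 := bad1 q' b2
  have h3 : B3.card = 3 := bad2 w b3
  have h4 : B4.card = 3 := bad2 w' b4
  have h5 : ¬ PP ⊆ B1 ∪ B2 ∪ B3 ∪ B4 := by
    intro hsub
    have h6 := card_le_card hsub
    have h7 := card_union_le (B1 ∪ B2 ∪ B3) B4
    have h8 := card_union_le (B1 ∪ B2) B3
    have h9 := card_union_le B1 B2
    rw [PP_card] at h6
    omega
  obtain ⟨p, hp, hn⟩ := not_subset.1 h5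
  simp only [mem_union, not_or] at hn
  obtain ⟨⟨⟨n1, n2⟩, n3⟩, n4⟩ := hn
  rw [hB1, mem_filter] at n1
  rw [hB2, mem_filter] at n2
  rw [hB3, mem_filter] at n3
  rw [hB4, mem_filter] at n4
  have hp' := (mem_filter.1 hp).2
  exact ⟨fun b => sel b p, hp'.1, hp'.2, fun h => n1 ⟨hp, h⟩, fun h => n2 ⟨hp, h⟩,
    fun h => n3 ⟨hp, h⟩, fun h => n4 ⟨hp, h⟩⟩

/-! ### All conflicts at once -/

def g4 (t : ℕ) : Q := match t with
  | 0 => (false, false, false)
  | 1 => (true, false, false)
  | 2 => (true, true, false)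
  | _ => (false, true, false)

def hex (t : ℕ) : Q := match t with
  | 0 => (false, false, false)
  | 1 => (true, false, false)
  | 2 => (true, true, false)
  | 3 => (true, true, true)
  | 4 => (false, true, true)
  | _ => (false, false, true)

def ff (t : ℕ) : Q := if t < 6 then hex t else g4 ((t - 6) % 4)

theorem ff_big (t m : ℕ) (h : t = 6 + m) : ff t = g4 (m % 4) := by
  unfold ff
  rw [if_neg (by omega)]
  congr 2
  omega

theorem ff_nr (t : ℕ) : nr (ff t) (ff (t + 1)) = true := by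
  by_cases h : t < 6
  · interval_cases t <;> decide
  · obtain ⟨m, rfl⟩ : ∃ m, t = 6 + m := ⟨t - 6, by omega⟩
    rw [ff_big (6 + m) m rfl, ff_big (6 + m + 1) (m + 1) rfl]
    have h4 : m % 4 < 4 := Nat.mod_lt _ (by norm_num)
    have h5 : (m + 1) % 4 = (m % 4 + 1) % 4 := by omega
    rw [h5]
    interval_cases m % 4 <;> decide

theorem ff_ne (t : ℕ) : ff t ≠ ff (t + 2) := by
  by_cases h : t < 6
  · interval_cases t <;> decide
  · obtain ⟨m, rfl⟩ : ∃ m, t = 6 + m := ⟨t - 6, by omega⟩
    rw [ff_big (6 + m) m rfl, ff_big (6 + m + 2) (m + 2) rfl]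
    have h4 : m % 4 < 4 := Nat.mod_lt _ (by norm_num)
    have h5 : (m + 2) % 4 = (m % 4 + 2) % 4 := by omega
    rw [h5]
    interval_cases m % 4 <;> decide

/-- closing up a sequence -/
theorem close_up (k : ℕ) (hk : 4 ≤ k) (f : ℕ → Q) (h1 : ∀ t, nr (f t) (f (t + 1)) = true)
    (h2 : ∀ t, f t ≠ f (t + 2)) (h3 : nr (f (k - 1)) (f 0) = true) (h4 : f (k - 2) ≠ f 0)
    (h5 : f (k - 1) ≠ f 1) : ∃ mu : ℕ → Q, (∀ i, mu (i + k) = mu i) ∧
      (∀ i, nr (mu i) (mu (i + 1)) = true) ∧ ∀ i, mu i ≠ mu (i + 2) := by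
  refine ⟨fun i => f (i % k), fun i => by simp, fun i => ?_, fun i => ?_⟩
  · have hlt : i % k < k := Nat.mod_lt _ (by omega)
    have h6 : (i + 1) % k = if i % k = k - 1 then 0 else i % k + 1 := by
      rw [Nat.add_mod, Nat.mod_eq_of_lt (by omega : 1 < k)]
      split_ifs with h
      · rw [h, Nat.sub_add_cancel (by omega), Nat.mod_self]
      · exact Nat.mod_eq_of_lt (by omega)
    show nr (f (i % k)) (f ((i + 1) % k)) = true
    rw [h6]
    split_ifs with h
    · rw [h]; exact h3
    · exact h1 _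
  · have hlt : i % k < k := Nat.mod_lt _ (by omega)
    have h6 : (i + 2) % k = if i % k = k - 1 then 1 else if i % k = k - 2 then 0 else i % k + 2 := by
      rw [Nat.add_mod, Nat.mod_eq_of_lt (by omega : 2 < k)]
      split_ifs with h h'
      · rw [h, show k - 1 + 2 = 1 + k by omega, Nat.add_mod_right, Nat.mod_eq_of_lt (by omega)]
      · rw [h', Nat.sub_add_cancel (by omega), Nat.mod_self]
      · exact Nat.mod_eq_of_lt (by omega)
    show f (i % k) ≠ f ((i + 2) % k)
    rw [h6]
    split_ifs with h h'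
    · rw [h]; exact h5
    · rw [h']; exact h4
    · exact h2 _

theorem allc : AllH := by
  intro k hk hk2
  by_cases h4 : k % 4 = 0
  · have e1 : ∀ m : ℕ, m % 4 = 3 → g4 (m % 4) = g4 3 := fun m h => by rw [h]
    refine close_up k hk (fun t => g4 (t % 4)) (fun t => ?_) (fun t => ?_) ?_ ?_ ?_
    · have h1 : t % 4 < 4 := Nat.mod_lt _ (by norm_num)
      have h2 : (t + 1) % 4 = (t % 4 + 1) % 4 := by omega
      show nr (g4 (t % 4)) (g4 ((t + 1) % 4)) = true
      rw [h2]
      interval_cases t % 4 <;> decide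
    · have h1 : t % 4 < 4 := Nat.mod_lt _ (by norm_num)
      have h2 : (t + 2) % 4 = (t % 4 + 2) % 4 := by omega
      show g4 (t % 4) ≠ g4 ((t + 2) % 4)
      rw [h2]
      interval_cases t % 4 <;> decide
    · show nr (g4 ((k - 1) % 4)) (g4 (0 % 4)) = true
      rw [show (k - 1) % 4 = 3 by omega]
      decide
    · show g4 ((k - 2) % 4) ≠ g4 (0 % 4)
      rw [show (k - 2) % 4 = 2 by omega]
      decide
    · show g4 ((k - 1) % 4) ≠ g4 (1 % 4)
      rw [show (k - 1) % 4 = 3 by omega]
      decide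
  · by_cases h6 : k = 6
    · subst h6
      exact close_up 6 hk ff ff_nr ff_ne (by decide) (by decide) (by decide)
    · refine close_up k hk ff ff_nr ff_ne ?_ ?_ ?_
      · rw [ff_big (k - 1) (k - 7) (by omega), show (k - 7) % 4 = 3 by omega]
        decide
      · rw [ff_big (k - 2) (k - 8) (by omega), show (k - 8) % 4 = 2 by omega]
        decide
      · rw [ff_big (k - 1) (k - 7) (by omega), show (k - 7) % 4 = 3 by omega]
        decide

/-! ### Colouring of the conflicts -/

theorem col_aux (k : ℤ) (hk : 4 ≤ k) (hk2 : k % 2 = 0) (j i : ℤ) (hp : i % 2 = j % 2) :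
    (decide (((i - j - 2) % k / 2) % 2 = 0) ≠ decide (((i + 2 - j - 2) % k / 2) % 2 = 0)) ∨
      ∃ m : ℤ, i = j + m * k := by
  set u := (i - j - 2) % k with hu
  have h0 : 0 ≤ u := Int.emod_nonneg _ (by omega)
  have h1 : u < k := Int.emod_lt_of_pos _ (by omega)
  have h2 : u + k * ((i - j - 2) / k) = i - j - 2 := Int.emod_add_mul_ediv _ _
  obtain ⟨k', rfl⟩ : ∃ k', k = 2 * k' := ⟨k / 2, by omega⟩
  have h3 : u % 2 = 0 := by
    have h4 : (u + 2 * (k' * ((i - j - 2) / (2 * k')))) = i - j - 2 := by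
      rw [← mul_assoc]
      exact h2
    omega
  by_cases h : u + 2 = 2 * k'
  · right
    refine ⟨(i - j - 2) / (2 * k') + 1, ?_⟩
    linear_combination (norm := skip) (-1 : ℤ) * h2
    linear_combination h
  · left
    have h5 : (i + 2 - j - 2) % (2 * k') = u + 2 := by
      have h6 : i + 2 - j - 2 = (u + 2) + 2 * k' * ((i - j - 2) / (2 * k')) := by
        linear_combination (-1 : ℤ) * h2
      rw [h6, Int.add_mul_emod_self_left, Int.emod_eq_of_lt (by omega) (by omega)]
    rw [h5]
    intro hc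
    have h7 := decide_eq_decide.1 hc
    omega

theorem not_L (k : ℕ) (L : ℤ → Prop) (hL : ∀ i, L (i + k) ↔ L i) (j : ℤ) (hj : ¬ L j) (m : ℤ) :
    ¬ L (j + m * k) := by
  induction m using Int.induction_on with
  | zero => simpa using hj
  | succ n ih =>
    rw [show j + (n + 1 : ℤ) * k = j + n * k + k by ring, hL]
    exact ih
  | pred n ih =>
    rw [← hL, show j + (-n - 1 : ℤ) * k + k = j + -n * k by ring]
    exact ih

/-- Module W3b, with `L` periodic. -/
theorem col' (k : ℕ) (L : ℤ → Prop) (hk : 4 ≤ k) (hk2 : k % 2 = 0) (hL : ∀ i, L (i + k) ↔ L i)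
    (h : k % 4 = 0 ∨ ∀ p : ℤ, ∃ j, j % 2 = p % 2 ∧ ¬ L j) :
    ∃ χ : ℤ → Bool, (∀ i, χ (i + k) = χ i) ∧ ∀ i, L i → χ i ≠ χ (i + 2) := by
  rcases h with h | h
  · refine ⟨fun i => decide ((i / 2) % 2 = 0), fun i => ?_, fun i _ => ?_⟩
    · rw [decide_eq_decide]
      omega
    · intro hc
      have := decide_eq_decide.1 hc
      omega
  · obtain ⟨j0, h0, hj0⟩ := h 0
    obtain ⟨j1, h1, hj1⟩ := h 1
    have hkz : (4 : ℤ) ≤ k := by exact_mod_cast hk
    have hkz2 : (k : ℤ) % 2 = 0 := by omega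
    refine ⟨fun i => if i % 2 = 0 then decide (((i - j0 - 2) % (k : ℤ) / 2) % 2 = 0)
      else decide (((i - j1 - 2) % (k : ℤ) / 2) % 2 = 0), fun i => ?_, fun i hi => ?_⟩
    · have e0 : (i + k - j0 - 2) % (k : ℤ) = (i - j0 - 2) % k := by
        rw [show i + k - j0 - 2 = (i - j0 - 2) + k by ring, Int.add_emod_right]
      have e1 : (i + k - j1 - 2) % (k : ℤ) = (i - j1 - 2) % k := by
        rw [show i + k - j1 - 2 = (i - j1 - 2) + k by ring, Int.add_emod_right]
      have e2 : (i + k) % 2 = i % 2 := by omega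
      simp only [e0, e1, e2]
    · have e2 : (i + 2) % 2 = i % 2 := by omega
      simp only [e2]
      by_cases hp : i % 2 = 0
      · rw [if_pos hp, if_pos hp]
        rcases col_aux k hkz hkz2 j0 i (by omega) with h | ⟨m, hm⟩
        · exact h
        · exact absurd hi (hm ▸ not_L k L hL j0 hj0 m)
      · rw [if_neg hp, if_neg hp]
        rcases col_aux k hkz hkz2 j1 i (by omega) with h | ⟨m, hm⟩
        · exact h
        · exact absurd hi (hm ▸ not_L k L hL j1 hj1 m)

end CLB.H26
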